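import Mathlib
import Pool.Agent.X269.ScottGroup

set_option autoImplicit false

/-!
MP_997916_al, Q1: two core-free `ℤ`-coset equivalent subgroups of a finite group need not be
isomorphic.
-/

namespace Pool.Agent.Results.MP_997916_al.CoreFreeNonisomorphic

/-- the action of `Γ` by left multiplication on the permutation module `ℤ[Γ/K]`, the free abelian
group on the left cosets of `K` -/
noncomputable def cosetModule {Γ : Type} [Group Γ] (K : Subgroup Γ) :
    Representation ℤ Γ ((Γ ⧸ K) →₀ ℤ) where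
  toFun g := Finsupp.lmapDomain ℤ ℤ (fun q : Γ ⧸ K => g • q)
  map_one' := by
    ext1 q
    ext1
    simp
  map_mul' g h := by
    ext1 q
    ext1
    simp [mul_smul]

/-- `ℤ`-coset equivalence: `ℤ[Γ/K₁]` and `ℤ[Γ/K₂]` are isomorphic `ℤ[Γ]`-modules, that is, there is
an isomorphism of abelian groups that commutes with the action of `Γ` -/
def ZCosetEquivalent {Γ : Type} [Group Γ] (K₁ K₂ : Subgroup Γ) : Prop :=
  ∃ e : ((Γ ⧸ K₁) →₀ ℤ) ≃ₗ[ℤ] ((Γ ⧸ K₂) →₀ ℤ),
    ∀ (g : Γ) (v : (Γ ⧸ K₁) →₀ ℤ), e (cosetModule K₁ g v) = cosetModule K₂ g (e v)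

/-- the only normal subgroup of `Γ` contained in `K` is the trivial one -/
def CoreFree {Γ : Type} [Group Γ] (K : Subgroup Γ) : Prop :=
  ∀ N : Subgroup Γ, N.Normal → N ≤ K → N = ⊥

/-- There are a finite group `Γ` and two core-free subgroups `K₁`, `K₂` with
`ℤ[Γ/K₁] ≅ ℤ[Γ/K₂]` as `ℤ[Γ]`-modules which are not isomorphic as abstract groups. -/
theorem result : ∃ (Γ : Type) (_ : Group Γ) (_ : Finite Γ) (K₁ K₂ : Subgroup Γ),
    CoreFree K₁ ∧ CoreFree K₂ ∧ ZCosetEquivalent K₁ K₂ ∧ ¬ Nonempty (K₁ ≃* K₂) :=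
  ⟨Equiv.Perm Pool.Agent.X269.ScottGroup.H, inferInstance, inferInstance, _, _,
    fun N hn hN => Pool.Agent.X269.CoreFree.coreFree_perm Pool.Agent.X269.ScottGroup.card_H _ N hn hN,
    fun N hn hN => Pool.Agent.X269.CoreFree.coreFree_perm Pool.Agent.X269.ScottGroup.card_H _ N hn hN,
    Pool.Agent.X269.ScottGroup.coset_equiv, Pool.Agent.X269.ScottGroup.not_iso⟩

end Pool.Agent.Results.MP_997916_al.CoreFreeNonisomorphic
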